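import Pool.Agent.J4H13.PL.Jobs

/-!
# Generic linear functionals (project PL, job LOV)
-/

set_option autoImplicit false

namespace Pool.Agent.J4H64.PL

open Pool.Agent.J4H13.PL

/-- the span of the pairs with index in `I` -/
def sp {d : ℕ} {W : Type} [AddCommGroup W] [Module ℂ W] (l l' : Fin d → W) (I : Finset (Fin d)) :
    Submodule ℂ W := Submodule.span ℂ (l '' (I : Set (Fin d)) ∪ l' '' I)

theorem sp_map {d : ℕ} {W V : Type} [AddCommGroup W] [Module ℂ W] [AddCommGroup V] [Module ℂ V]
    (f : W →ₗ[ℂ] V) (l l' : Fin d → W) (I : Finset (Fin d)) :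
    sp (fun k => f (l k)) (fun k => f (l' k)) I = (sp l l' I).map f := by
  unfold sp
  rw [Submodule.map_span, Set.image_union, Set.image_image, Set.image_image]

theorem lov : ∀ (d : ℕ) (W : Type) [AddCommGroup W] [Module ℂ W] [FiniteDimensional ℂ W]
    (l l' : Fin d → W) (Z : Finset W), (0 : W) ∉ Z →
    (∀ I : Finset (Fin d), I.Nonempty → I.card + 1 ≤ Module.finrank ℂ (sp l l' I)) →
    ∃ φ : W →ₗ[ℂ] ℂ, (∀ z ∈ Z, φ z ≠ 0) ∧
      LinearIndependent ℂ fun k => φ (l' k) • l k - φ (l k) • l' k := by
  classical
  intro d
  induction d with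
  | zero =>
    intro W _ _ _ l l' Z hZ _
    obtain ⟨f, hf⟩ := Module.exists_dual_forall_apply_ne_zero (K := ℂ) (fun z : Z => (z : W))
      (fun z h => hZ (h ▸ z.2))
    exact ⟨f, fun z hz => hf ⟨z, hz⟩, linearIndependent_empty_type⟩
  | succ d ih =>
    intro W _ _ _ l l' Z hZ hI
    -- the plane
    obtain ⟨U, hU⟩ : ∃ U : Submodule ℂ W, U = Submodule.span ℂ {l 0, l' 0} := ⟨_, rfl⟩
    have hU2 : 2 ≤ Module.finrank ℂ U := by
      have h1 := hI {0} (Finset.singleton_nonempty 0)
      have h2 : sp l l' {0} = U := by
        rw [hU]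
        unfold sp
        congr 1
        rw [Finset.coe_singleton, Set.image_singleton, Set.image_singleton, Set.singleton_union]
      rw [h2, Finset.card_singleton] at h1
      exact h1
    have hl0 : l 0 ∈ U := hU ▸ Submodule.subset_span (by simp)
    have hl'0 : l' 0 ∈ U := hU ▸ Submodule.subset_span (by simp)
    have hUle : ∀ V : Submodule ℂ W, l 0 ∈ V → l' 0 ∈ V → U ≤ V := by
      intro V h1 h2
      rw [hU, Submodule.span_le]
      rintro x (rfl | rfl)
      · exact h1
      · exact h2
    -- the subspaces to be avoided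
    let lt : Fin d → W := fun k => l k.succ
    let lt' : Fin d → W := fun k => l' k.succ
    let S : {I : Finset (Fin d) // ¬ U ≤ sp lt lt' I} ⊕ Z → Submodule ℂ U := Sum.elim
      (fun I => (sp lt lt' I.1).comap U.subtype) (fun z => (Submodule.span ℂ {(z : W)}).comap U.subtype)
    have hS : ∀ i, S i ≠ ⊤ := by
      rintro (⟨I, hI⟩ | z)
      · intro h
        apply hI
        intro x hx
        have : (⟨x, hx⟩ : U) ∈ (sp lt lt' I).comap U.subtype := by
          have h' : (sp lt lt' I).comap U.subtype = ⊤ := h
          rw [h']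
          trivial
        exact this
      · intro h
        have h1 : U ≤ Submodule.span ℂ {(z : W)} := by
          intro x hx
          have : (⟨x, hx⟩ : U) ∈ (Submodule.span ℂ {(z : W)}).comap U.subtype := by
            have h' : (Submodule.span ℂ {(z : W)}).comap U.subtype = ⊤ := h
            rw [h']
            trivial
          exact this
        have h2 := Submodule.finrank_mono h1
        have h3 := finrank_span_singleton (K := ℂ) (v := (z : W)) (fun h => hZ (h ▸ z.2))
        omega
    obtain ⟨α, hα⟩ := Submodule.exists_forall_notMem_of_forall_ne_top S hS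
    have hα1 : ∀ I, (α : W) ∈ sp lt lt' I → U ≤ sp lt lt' I := by
      intro I h
      by_contra hc
      exact hα (Sum.inl ⟨I, hc⟩) h
    have hα2 : ∀ z ∈ Z, (α : W) ∉ Submodule.span ℂ {z} := fun z hz h => hα (Sum.inr ⟨z, hz⟩) h
    have hα0 : (α : W) ≠ 0 := by
      intro h
      have h1 := hα1 ∅ (by rw [h]; exact Submodule.zero_mem _)
      have h2 : sp lt lt' ∅ = ⊥ := by
        unfold sp
        simp
      rw [h2] at h1
      have h3 := Submodule.finrank_mono h1
      rw [finrank_bot] at h3
      omega
    -- the quotient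
    let L := Submodule.span ℂ {(α : W)}
    let π : W →ₗ[ℂ] W ⧸ L := L.mkQ
    have hLU : L ≤ U := by
      rw [Submodule.span_le, Set.singleton_subset_iff]
      exact α.2
    have hL1 : Module.finrank ℂ L = 1 := finrank_span_singleton hα0
    have hπ : ∀ x, π x = 0 ↔ x ∈ L := fun x => Submodule.Quotient.mk_eq_zero L
    obtain ⟨u, huU, huL⟩ : ∃ u ∈ U, u ∉ L := by
      by_contra hc
      push Not at hc
      have h3 := Submodule.finrank_mono (show U ≤ L from hc)
      omega
    obtain ⟨φ', hφ'Z, hφ'⟩ := ih (W ⧸ L) (fun k => π (lt k)) (fun k => π (lt' k))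
      (insert (π u) (Z.image π)) (by
        rw [Finset.mem_insert, Finset.mem_image, not_or]
        refine ⟨fun h => huL ((hπ u).1 h.symm), ?_⟩
        rintro ⟨z, hz, h⟩
        have h1 : z ∈ L := (hπ z).1 h
        obtain ⟨c, hc⟩ := Submodule.mem_span_singleton.1 h1
        have hc0 : c ≠ 0 := by
          rintro rfl
          rw [zero_smul] at hc
          exact hZ (hc ▸ hz)
        apply hα2 z hz
        rw [Submodule.mem_span_singleton]
        exact ⟨c⁻¹, by rw [← hc, smul_smul, inv_mul_cancel₀ hc0, one_smul]⟩) (by
      intro I hIne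
      rw [sp_map]
      -- the dimension of the image
      have h2 := LinearMap.finrank_range_add_finrank_ker (π.domRestrict (sp lt lt' I))
      rw [LinearMap.range_domRestrict] at h2
      by_cases hαI : (α : W) ∈ sp lt lt' I
      · have h3 : Module.finrank ℂ (LinearMap.ker (π.domRestrict (sp lt lt' I))) ≤ 1 := by
          rw [← hL1]
          let f : LinearMap.ker (π.domRestrict (sp lt lt' I)) →ₗ[ℂ] L :=
            { toFun := fun x => ⟨((x : sp lt lt' I) : W), (hπ _).1 x.2⟩
              map_add' := fun x y => rfl
              map_smul' := fun c x => rfl }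
          refine LinearMap.finrank_le_finrank_of_injective (f := f) ?_
          intro x y hxy
          exact Subtype.ext (Subtype.ext (congrArg (fun z : L => (z : W)) hxy))
        -- the pair with index `0` is in the span
        have h4 := hα1 I hαI
        have h5 := hI (insert 0 (I.map (Fin.succEmb d))) (Finset.insert_nonempty _ _)
        have h6 : sp l l' (insert 0 (I.map (Fin.succEmb d))) ≤ sp lt lt' I := by
          unfold sp
          rw [Submodule.span_le]
          rintro x (⟨k, hk, rfl⟩ | ⟨k, hk, rfl⟩)
          · rw [Finset.mem_coe, Finset.mem_insert, Finset.mem_map] at hk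
            rcases hk with rfl | ⟨j, hj, rfl⟩
            · exact h4 hl0
            · exact Submodule.subset_span (Or.inl ⟨j, hj, rfl⟩)
          · rw [Finset.mem_coe, Finset.mem_insert, Finset.mem_map] at hk
            rcases hk with rfl | ⟨j, hj, rfl⟩
            · exact h4 hl'0
            · exact Submodule.subset_span (Or.inr ⟨j, hj, rfl⟩)
        have h7 := Submodule.finrank_mono h6
        rw [Finset.card_insert_of_notMem (by simp [Fin.succ_ne_zero]), Finset.card_map] at h5
        omega
      · have h3 : Module.finrank ℂ (LinearMap.ker (π.domRestrict (sp lt lt' I))) = 0 := by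
          rw [Submodule.finrank_eq_zero, LinearMap.ker_eq_bot']
          rintro ⟨x, hx⟩ h
          have h1 : x ∈ L := (hπ x).1 h
          obtain ⟨c, hc⟩ := Submodule.mem_span_singleton.1 h1
          have hc0 : c = 0 := by
            by_contra hc0
            apply hαI
            have : (α : W) = c⁻¹ • x := by rw [← hc, smul_smul, inv_mul_cancel₀ hc0, one_smul]
            rw [this]
            exact Submodule.smul_mem _ _ hx
          rw [hc0, zero_smul] at hc
          exact Subtype.ext hc.symm
        have h5 := hI (I.map (Fin.succEmb d)) (by simpa using hIne)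
        have h6 : sp l l' (I.map (Fin.succEmb d)) = sp lt lt' I := by
          unfold sp
          congr 1
          rw [Finset.coe_map, Set.image_image, Set.image_image]
          rfl
        rw [h6, Finset.card_map] at h5
        omega)
    -- the functional
    let φ : W →ₗ[ℂ] ℂ := φ' ∘ₗ π
    have hφα : ∀ x ∈ L, φ x = 0 := by
      intro x hx
      show φ' (π x) = 0
      rw [(hπ x).2 hx, map_zero]
    have hφu : φ u ≠ 0 := hφ'Z _ (Finset.mem_insert_self _ _)
    refine ⟨φ, fun z hz => hφ'Z _ (Finset.mem_insert_of_mem (Finset.mem_image_of_mem _ hz)), ?_⟩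
    -- the vector with index 0
    obtain ⟨w₀, hw₀⟩ : ∃ w₀ : W, w₀ = φ (l' 0) • l 0 - φ (l 0) • l' 0 := ⟨_, rfl⟩
    have hw₀U : w₀ ∈ U := hw₀ ▸ U.sub_mem (U.smul_mem _ hl0) (U.smul_mem _ hl'0)
    have hφw₀ : φ w₀ = 0 := by
      rw [hw₀, map_sub, map_smul, map_smul, smul_eq_mul, smul_eq_mul]
      ring
    have hli : LinearIndependent ℂ ![l 0, l' 0] := by
      rw [linearIndependent_iff_card_le_finrank_span]
      have h1 : Set.range ![l 0, l' 0] = {l 0, l' 0} := by
        simp [Matrix.range_cons, Matrix.range_empty, Set.pair_comm]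
      rw [Set.finrank, h1, ← hU, Fintype.card_fin]
      exact hU2
    have hw₀0 : w₀ ≠ 0 := by
      intro h
      rw [hw₀, sub_eq_add_neg, ← neg_smul] at h
      obtain ⟨h1, h2⟩ := LinearIndependent.pair_iff.1 hli _ _ h
      apply hφu
      have h3 : U ≤ LinearMap.ker φ :=
        hUle _ (LinearMap.mem_ker.2 (neg_eq_zero.1 h2)) (LinearMap.mem_ker.2 h1)
      exact LinearMap.mem_ker.1 (h3 huU)
    have hw₀L : w₀ ∈ L := by
      by_contra hc
      -- then `U = span {α, w₀}` and `φ` vanishes on `U`
      have hli2 : LinearIndependent ℂ ![(α : W), w₀] := by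
        rw [LinearIndependent.pair_iff]
        intro s t hst
        have ht : t = 0 := by
          by_contra ht
          apply hc
          have : w₀ = (-(t⁻¹ * s)) • (α : W) := by
            have h1 : t • w₀ = -(s • (α : W)) := by
              rw [eq_neg_iff_add_eq_zero, add_comm]
              exact hst
            calc w₀ = t⁻¹ • (t • w₀) := by rw [smul_smul, inv_mul_cancel₀ ht, one_smul]
              _ = _ := by rw [h1, smul_neg, smul_smul, neg_smul]
          rw [this]
          exact Submodule.smul_mem _ _ (Submodule.mem_span_singleton_self _)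
        rw [ht, zero_smul, add_zero] at hst
        exact ⟨(smul_eq_zero.1 hst).resolve_right hα0, ht⟩
      have h1 : Submodule.span ℂ (Set.range ![(α : W), w₀]) ≤ U := by
        rw [Submodule.span_le]
        rintro x ⟨i, rfl⟩
        fin_cases i
        · exact α.2
        · exact hw₀U
      have h2 : Module.finrank ℂ (Submodule.span ℂ (Set.range ![(α : W), w₀])) = 2 := by
        rw [finrank_span_eq_card hli2, Fintype.card_fin]
      have h3 : Module.finrank ℂ U ≤ 2 := by
        have h4 := finrank_range_le_card (R := ℂ) (b := ![l 0, l' 0])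
        have h5 : Set.range ![l 0, l' 0] = {l 0, l' 0} := by
          simp [Matrix.range_cons, Matrix.range_empty, Set.pair_comm]
        rw [Set.finrank, h5, ← hU, Fintype.card_fin] at h4
        exact h4
      have h4 : Submodule.span ℂ (Set.range ![(α : W), w₀]) = U :=
        Submodule.eq_of_le_of_finrank_le h1 (by rw [h2]; exact h3)
      have h5 : Submodule.span ℂ (Set.range ![(α : W), w₀]) ≤ LinearMap.ker φ := by
        rw [Submodule.span_le]
        rintro x ⟨i, rfl⟩
        fin_cases i
        · exact hφα _ (Submodule.mem_span_singleton_self _)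
        · exact hφw₀
      rw [h4] at h5
      exact hφu (LinearMap.mem_ker.1 (h5 huU))
    rw [linearIndependent_finSucc]
    obtain ⟨T, hT⟩ : ∃ T : Fin d → W, T = Fin.tail
        (fun k => φ (l' k) • l k - φ (l k) • l' k : Fin (d + 1) → W) := ⟨_, rfl⟩
    have hTk : ∀ k, T k = φ (lt' k) • lt k - φ (lt k) • lt' k := fun k => by rw [hT]; rfl
    have hπT : LinearIndependent ℂ fun k => π (T k) := by
      have h1 : (fun k => π (T k)) =
          fun k => φ' (π (lt' k)) • π (lt k) - φ' (π (lt k)) • π (lt' k) := by
        funext k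
        rw [hTk, map_sub, map_smul, map_smul]
        rfl
      rw [h1]
      exact hφ'
    rw [← hT, ← hw₀]
    refine ⟨LinearIndependent.of_comp π hπT, ?_⟩
    intro h
    obtain ⟨c, hc⟩ := (Submodule.mem_span_range_iff_exists_fun ℂ).1 h
    have h1 : ∑ i, c i • π (T i) = 0 := by
      have h2 := congrArg π hc
      rw [map_sum, (hπ w₀).2 hw₀L] at h2
      simpa only [map_smul] using h2
    have h2 := Fintype.linearIndependent_iff.1 hπT c h1
    apply hw₀0
    rw [← hc]
    simp [h2]

theorem t_LOV : S_LOV := fun d W _ _ _ l l' Z hZ h => lov d W l l' Z hZ h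

end Pool.Agent.J4H64.PL
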