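import Pool.Agent.J4H13.PL.Jobs

/-!
# The order of the product of the canonical forms (project PL, job REGT)
-/

set_option autoImplicit false

open FF Matrix

namespace Pool.Agent.J4H64.PL

open Pool.Agent.J4H13.PL Pool.Agent.W602.GT Pool.Agent.W603.LV

variable {K : Type} [Field K] [Algebra ℂ K]

/-- a determinant with regular entries is regular -/
theorem ge_det {P : Place ℂ K} {n : Type*} [Fintype n] [DecidableEq n] (M : Matrix n n K)
    (h : ∀ i j, Ge P 0 (M i j)) : Ge P 0 M.det := by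
  rw [Matrix.det_apply]
  refine Ge.sum _ _ fun σ _ => ?_
  have h1 := Ge.prod (P := P) (Finset.univ : Finset n) (fun i => M (σ i) i) (fun _ => 0)
    fun i _ => h _ _
  rw [Finset.sum_const_zero] at h1
  rcases Int.units_eq_one_or (Equiv.Perm.sign σ) with h2 | h2
  · rw [h2, one_smul]
    exact h1
  · rw [h2, Units.neg_smul, one_smul]
    exact h1.neg

/-- rank one perturbations with a simple pole -/
theorem ge_det_add {P : Place ℂ K} {π : K} (hπ0 : π ≠ 0) (hπ : P.ord π = 1) {n : Type*} [Fintype n]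
    [DecidableEq n] (ρ : Matrix n n K) (κ : n → K) (τ : n → K) (h : ∀ i j, Ge P 0 (ρ i j))
    (hκ : ∀ i, Ge P 0 (κ i)) (hτ : ∀ j, Ge P 0 (π * τ j)) :
    Ge P (-1) (Matrix.of fun i j => ρ i j + κ i * τ j).det := by
  let B : Matrix Unit n K := Matrix.of fun _ j => -τ j
  let C : Matrix n Unit K := Matrix.of fun i _ => κ i
  have h1 : (Matrix.of fun i j => ρ i j + κ i * τ j) = ρ - C * B := by
    ext i j
    rw [Matrix.sub_apply, Matrix.mul_apply]
    simp [B, C]
  have h2 := Matrix.det_fromBlocks_one₁₁ B C ρ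
  rw [h1, ← h2]
  have h3 : π * (fromBlocks (1 : Matrix Unit Unit K) B C ρ).det =
      ((fromBlocks (1 : Matrix Unit Unit K) B C ρ).updateRow (Sum.inl ())
        (π • (fromBlocks (1 : Matrix Unit Unit K) B C ρ) (Sum.inl ()))).det := by
    rw [Matrix.det_updateRow_smul, Matrix.updateRow_eq_self]
  have h4 : Ge P 0 (π * (fromBlocks (1 : Matrix Unit Unit K) B C ρ).det) := by
    rw [h3]
    apply ge_det
    rintro (⟨⟩ | i) (⟨⟩ | j)
    · rw [Matrix.updateRow_self]
      have : (π • (fromBlocks (1 : Matrix Unit Unit K) B C ρ) (Sum.inl ())) (Sum.inl ()) = π := by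
        simp
      rw [this]
      exact Or.inr (by omega)
    · rw [Matrix.updateRow_self]
      have : (π • (fromBlocks (1 : Matrix Unit Unit K) B C ρ) (Sum.inl ())) (Sum.inr j) =
          -(π * τ j) := by
        simp [B]
      rw [this]
      exact (hτ j).neg
    · rw [Matrix.updateRow_ne (by simp)]
      exact hκ i
    · rw [Matrix.updateRow_ne (by simp)]
      exact h i j
  refine Ge.of_mul' (h := π) (m := 1) hπ0 hπ ?_
  simpa using h4

theorem t_REGT : S_REGT := by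
  classical
  intro K _ _ I _ _ r Y P hY0 hY D hD
  obtain ⟨π, hπ0, hπ⟩ := Pool.Agent.J4H13.LA.exists_unif P
  choose ε hε0 hεo hε using fun (i : I) (k : Fin (r i + 1)) =>
    Pool.Agent.J4H13.LA.logd hπ0 hπ (hY0 i k)
  let κ : ((i : I) × Fin (r i + 1)) → K := fun a => (P.ord (Y a.1 a.2) : K)
  let τ : ((i : I) × Fin (r i + 1)) → K := fun b =>
    Fin.cases (motive := fun _ => K) 0 (fun k => D ⟨b.1, k⟩ π / π) b.2
  let ρ : Matrix ((i : I) × Fin (r i + 1)) ((i : I) × Fin (r i + 1)) K := Matrix.of fun a b =>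
    Fin.cases (motive := fun _ => K) (if a.1 = b.1 then 1 else 0)
      (fun k => D ⟨b.1, k⟩ (ε a.1 a.2) / ε a.1 a.2) b.2
  have hρ : ∀ a b, Ge P 0 (ρ a b) := by
    rintro ⟨i, k⟩ ⟨i', l⟩
    refine Fin.cases ?_ (fun l => ?_) l
    · have h1 : ρ ⟨i, k⟩ ⟨i', 0⟩ = if i = i' then 1 else 0 := rfl
      rw [h1]
      split_ifs
      · exact Ge.one
      · exact Ge.zero
    · exact (hε i k (D ⟨i', l⟩) (hD _)).1
  have hκ : ∀ a, Ge P 0 (κ a) := fun a => Ge.intCast _
  have hτ : ∀ b, Ge P 0 (π * τ b) := by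
    rintro ⟨i', l⟩
    refine Fin.cases ?_ (fun l => ?_) l
    · have h1 : τ ⟨i', 0⟩ = 0 := rfl
      rw [h1, mul_zero]
      exact Ge.zero
    · have h1 : τ ⟨i', l.succ⟩ = D ⟨i', l⟩ π / π := rfl
      rw [h1, mul_div_cancel₀ _ hπ0]
      exact hD _ π (Or.inr (by omega))
  have hTM : ∀ a b, TM Y D a b = Y a.1 a.2 * (ρ a b + κ a * τ b) := by
    rintro ⟨i, k⟩ ⟨i', l⟩
    refine Fin.cases ?_ (fun l => ?_) l
    · have h1 : ρ ⟨i, k⟩ ⟨i', 0⟩ = if i = i' then 1 else 0 := rfl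
      have h2 : τ ⟨i', 0⟩ = 0 := rfl
      have h3 : TM Y D ⟨i, k⟩ ⟨i', 0⟩ = if i = i' then Y i k else 0 := rfl
      rw [h1, h2, h3, mul_zero, add_zero]
      split_ifs
      · rw [mul_one]
      · rw [mul_zero]
    · have h1 : ρ ⟨i, k⟩ ⟨i', l.succ⟩ = D ⟨i', l⟩ (ε i k) / ε i k := rfl
      have h2 : τ ⟨i', l.succ⟩ = D ⟨i', l⟩ π / π := rfl
      have h3 : TM Y D ⟨i, k⟩ ⟨i', l.succ⟩ = D ⟨i', l⟩ (Y i k) := rfl
      have h4 := (hε i k (D ⟨i', l⟩) (hD _)).2
      rw [h1, h2, h3]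
      show _ = Y i k * (D ⟨i', l⟩ (ε i k) / ε i k + (P.ord (Y i k) : K) * (D ⟨i', l⟩ π / π))
      rw [add_comm (D ⟨i', l⟩ (ε i k) / ε i k), ← h4, mul_div_cancel₀ _ (hY0 i k)]
  have hTT : TT Y D = (∏ a : (i : I) × Fin (r i + 1), Y a.1 a.2) *
      (Matrix.of fun a b => ρ a b + κ a * τ b).det := by
    have h1 : TM Y D = Matrix.diagonal (fun a : (i : I) × Fin (r i + 1) => Y a.1 a.2) *
        (Matrix.of fun a b => ρ a b + κ a * τ b) := by
      ext a b
      rw [Matrix.diagonal_mul, hTM]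
      rfl
    unfold TT
    rw [h1, Matrix.det_mul, Matrix.det_diagonal]
  have hprod : Ge P (∑ i, ∑ k, P.ord (Y i k)) (∏ a : (i : I) × Fin (r i + 1), Y a.1 a.2) := by
    have h1 := Ge.prod (P := P) (Finset.univ : Finset ((i : I) × Fin (r i + 1)))
      (fun a => Y a.1 a.2) (fun a => P.ord (Y a.1 a.2)) fun a _ => Or.inr le_rfl
    rwa [Fintype.sum_sigma] at h1
  rw [hTT, sub_eq_add_neg]
  refine hprod.mul ?_
  by_cases h : ∃ i k, 0 < P.ord (Y i k)
  · rw [if_pos h]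
    exact ge_det_add hπ0 hπ ρ κ τ hρ hκ hτ
  · rw [if_neg h, neg_zero]
    apply ge_det
    intro a b
    push Not at h
    have h1 : P.ord (Y a.1 a.2) = 0 := le_antisymm (h a.1 a.2) (hY a.1 a.2)
    have h2 : (Matrix.of fun a b => ρ a b + κ a * τ b) a b = ρ a b := by
      show ρ a b + (P.ord (Y a.1 a.2) : K) * τ b = ρ a b
      rw [h1]
      simp
    rw [h2]
    exact hρ a b

end Pool.Agent.J4H64.PL
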