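import Pool.Agent.J4H13.PL.Jobs

/-!
# Change of basis and scaling (project PL, job SCALE)
-/

set_option autoImplicit false

open FF Matrix

namespace Pool.Agent.J4H64.PL

open Pool.Agent.J4H13.PL

/-- the determinant of a block diagonal matrix with blocks of different sizes -/
theorem det_bd {R : Type*} [CommRing R] {I : Type*} [Fintype I] [DecidableEq I] {m : I → Type*}
    [∀ i, Fintype (m i)] [∀ i, DecidableEq (m i)] (d : ∀ i, Matrix (m i) (m i) R) :
    (blockDiagonal' d).det = ∏ i, (d i).det := by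
  let L : LinearOrder I := LinearOrder.lift' (Fintype.equivFin I) (Equiv.injective _)
  have h : BlockTriangular (blockDiagonal' d) Sigma.fst := blockTriangular_blockDiagonal' d
  rw [h.det_fintype]
  refine Finset.prod_congr rfl fun i _ => ?_
  let e : m i ≃ {a : (i : I) × m i // a.1 = i} :=
    { toFun := fun x => ⟨⟨i, x⟩, rfl⟩
      invFun := fun a => cast (congrArg m a.2) a.1.2
      left_inv := fun x => rfl
      right_inv := by
        rintro ⟨⟨j, x⟩, hj⟩
        subst hj
        rfl }
  rw [← Matrix.det_submatrix_equiv_self e]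
  congr 1
  ext x y
  exact blockDiagonal'_apply_eq d i x y

theorem t_SCALE : S_SCALE := by
  intro K _ _ I _ _ r Y Y' g c hc hY D
  let A : Matrix ((i : I) × Fin (r i + 1)) I K := Matrix.of fun a i => if a = ⟨i, 0⟩ then 1 else 0
  let B : Matrix I ((i : I) × Fin (r i + 1)) K := Matrix.of fun i b =>
    Fin.cases (motive := fun _ => K) 0 (fun k => D ⟨b.1, k⟩ (c i) / c i) b.2
  have hBA : B * A = 0 := by
    ext i j
    rw [Matrix.mul_apply, Matrix.zero_apply]
    refine Finset.sum_eq_zero fun a _ => ?_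
    by_cases h : a = ⟨j, 0⟩
    · subst h
      have : B i ⟨j, 0⟩ = 0 := rfl
      rw [this, zero_mul]
    · have : A a j = 0 := if_neg h
      rw [this, mul_zero]
  let U : Matrix ((i : I) × Fin (r i + 1)) ((i : I) × Fin (r i + 1)) K := 1 + A * B
  have hU : U.det = 1 := by
    show (1 + A * B).det = 1
    rw [Matrix.det_one_add_mul_comm, hBA, add_zero, Matrix.det_one]
  let d : (i : I) → Matrix (Fin (r i + 1)) (Fin (r i + 1)) K :=
    fun i => c i • (g i).map (algebraMap ℂ K)
  let G : Matrix ((i : I) × Fin (r i + 1)) ((i : I) × Fin (r i + 1)) K :=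
    blockDiagonal' (m' := fun i => Fin (r i + 1)) (n' := fun i => Fin (r i + 1)) d
  let M : Matrix ((i : I) × Fin (r i + 1)) ((i : I) × Fin (r i + 1)) K := TM Y D
  have hGdet : G.det = ∏ i, (c i ^ (r i + 1) * algebraMap ℂ K (g i).det) := by
    rw [det_bd]
    refine Finset.prod_congr rfl fun i _ => ?_
    rw [Matrix.det_smul, Fintype.card_fin, ← RingHom.mapMatrix_apply, ← RingHom.map_det]
  have hG : ∀ (X : Matrix ((i : I) × Fin (r i + 1)) ((i : I) × Fin (r i + 1)) K) (i : I)
      (k : Fin (r i + 1)) b, (G * X) ⟨i, k⟩ b =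
      ∑ j, c i * algebraMap ℂ K (g i k j) * X ⟨i, j⟩ b := by
    intro X i k b
    rw [Matrix.mul_apply, Fintype.sum_sigma, Finset.sum_eq_single i]
    · refine Finset.sum_congr rfl fun j _ => ?_
      have : G ⟨i, k⟩ ⟨i, j⟩ = c i * algebraMap ℂ K (g i k j) :=
        blockDiagonal'_apply_eq (m' := fun i => Fin (r i + 1)) (n' := fun i => Fin (r i + 1))
          d i k j
      rw [this]
    · intro i' _ hi'
      refine Finset.sum_eq_zero fun j _ => ?_
      have : G ⟨i, k⟩ ⟨i', j⟩ = 0 :=
        blockDiagonal'_apply_ne (m' := fun i => Fin (r i + 1)) (n' := fun i => Fin (r i + 1))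
          d k j (Ne.symm hi')
      rw [this, zero_mul]
    · intro h
      exact absurd (Finset.mem_univ i) h
  have hAcol : ∀ (a : (i : I) × Fin (r i + 1)) (i' : I), (M * A) a i' =
      if a.1 = i' then Y a.1 a.2 else 0 := by
    intro a i'
    rw [Matrix.mul_apply, Finset.sum_eq_single (⟨i', 0⟩ : (i : I) × Fin (r i + 1))]
    · have h1 : A ⟨i', 0⟩ i' = 1 := if_pos rfl
      rw [h1, mul_one]
      rfl
    · intro b _ hb
      have : A b i' = 0 := if_neg hb
      rw [this, mul_zero]
    · intro h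
      exact absurd (Finset.mem_univ _) h
  have hMU : ∀ (a b : (i : I) × Fin (r i + 1)), (M * U) a b =
      M a b + Y a.1 a.2 * B a.1 b := by
    intro a b
    have hUe : U = 1 + A * B := rfl
    rw [hUe, Matrix.mul_add, Matrix.mul_one, ← Matrix.mul_assoc, Matrix.add_apply]
    congr 1
    rw [Matrix.mul_apply, Finset.sum_eq_single a.1]
    · rw [hAcol, if_pos rfl]
    · intro i' _ hi'
      rw [hAcol, if_neg (Ne.symm hi'), zero_mul]
    · intro h
      exact absurd (Finset.mem_univ _) h
  have hmain : TM Y' D = G * (M * U) := by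
    ext ⟨i, k⟩ ⟨i', l⟩
    rw [hG]
    simp only [hMU]
    refine Fin.cases ?_ (fun l => ?_) l
    · have h1 : B i ⟨i', 0⟩ = 0 := rfl
      have h2 : ∀ j, M ⟨i, j⟩ ⟨i', 0⟩ = if i = i' then Y i j else 0 := fun j => rfl
      have h3 : TM Y' D ⟨i, k⟩ ⟨i', 0⟩ = if i = i' then Y' i k else 0 := rfl
      simp only [h1, h2, h3, mul_zero, add_zero]
      by_cases h : i = i'
      · simp only [if_pos h]
        rw [hY, Finset.mul_sum]
        refine Finset.sum_congr rfl fun j _ => ?_
        ring
      · simp only [if_neg h, mul_zero, Finset.sum_const_zero]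
    · have h1 : B i ⟨i', l.succ⟩ = D ⟨i', l⟩ (c i) / c i := rfl
      have h2 : ∀ j, M ⟨i, j⟩ ⟨i', l.succ⟩ = D ⟨i', l⟩ (Y i j) := fun j => rfl
      have h3 : TM Y' D ⟨i, k⟩ ⟨i', l.succ⟩ = D ⟨i', l⟩ (Y' i k) := rfl
      simp only [h1, h2, h3]
      rw [hY, Derivation.leibniz, map_sum, smul_eq_mul, smul_eq_mul, Finset.mul_sum,
        Finset.sum_mul, ← Finset.sum_add_distrib]
      refine Finset.sum_congr rfl fun j _ => ?_
      rw [Derivation.leibniz, smul_eq_mul, smul_eq_mul, Derivation.map_algebraMap]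
      field_simp [hc i]
      ring
  unfold TT
  rw [hmain, Matrix.det_mul, Matrix.det_mul, hU, mul_one, hGdet]

end Pool.Agent.J4H64.PL
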